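import Mathlib

set_option autoImplicit false

namespace Pool.Agent.H5CS

open Subgroup

/-- A generating tuple `x` of `G` that is homogeneous for the Nielsen moves: each of the listed
elementary automorphisms of the free group on `n` letters induces an automorphism of `G`. -/
structure Homog {n : ℕ} {G : Type*} [Group G] (x : Fin n → G) : Prop where
  gen : closure (Set.range x) = ⊤
  perm : ∀ s : Equiv.Perm (Fin n), ∃ φ : MulAut G, ∀ i, φ (x i) = x (s i)
  inv : ∀ i, ∃ φ : MulAut G, φ (x i) = (x i)⁻¹ ∧ ∀ j, j ≠ i → φ (x j) = x j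
  tr : ∀ (S : Set (Fin n)) (u v : Fin n → G), (∀ i, u i ∈ closure (x '' S)) →
    (∀ i, v i ∈ closure (x '' S)) →
    ∃ φ : MulAut G, (∀ j ∈ S, φ (x j) = x j) ∧ ∀ i, i ∉ S → φ (x i) = (u i)⁻¹ * x i * v i

section basic

variable {n : ℕ} {G : Type*} [Group G] {x : Fin n → G}

lemma fix_of {S : Set (Fin n)} {φ : MulAut G} (h : ∀ j ∈ S, φ (x j) = x j) :
    ∀ g ∈ closure (x '' S), φ g = g := by
  intro g hg
  have h1 : Set.EqOn (φ.toMonoidHom) (MonoidHom.id G) (closure (x '' S)) := by
    apply MonoidHom.eqOn_closure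
    rintro _ ⟨j, hj, rfl⟩
    simpa using h j hj
  simpa using h1 hg

lemma Homog.ext (hx : Homog x) {φ ψ : MulAut G} (h : ∀ i, φ (x i) = ψ (x i)) : φ = ψ := by
  have h1 : φ.toMonoidHom = ψ.toMonoidHom := by
    apply MonoidHom.eq_of_eqOn_dense hx.gen
    rintro _ ⟨j, rfl⟩
    simpa using h j
  ext g
  have := DFunLike.congr_fun h1 g
  simpa using this

lemma comm_of_gen (hgen : closure (Set.range x) = ⊤) (h : ∀ i j, x i * x j = x j * x i) :
    ∀ a b : G, a * b = b * a := by
  have h1 : closure (Set.range x) ≤ centralizer (Set.range x) := by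
    rw [closure_le]
    rintro _ ⟨i, rfl⟩
    rw [SetLike.mem_coe, mem_centralizer_iff]
    rintro _ ⟨j, rfl⟩
    exact h j i
  have h2 : closure (Set.range x) ≤ centralizer (Set.univ) := by
    rw [closure_le]
    rintro _ ⟨i, rfl⟩
    rw [SetLike.mem_coe, mem_centralizer_iff]
    intro g _
    have hg : g ∈ closure (Set.range x) := by rw [hgen]; trivial
    have := h1 hg
    rw [mem_centralizer_iff] at this
    exact (this (x i) ⟨i, rfl⟩).symm
  intro a b
  have hb : b ∈ closure (Set.range x) := by rw [hgen]; trivial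
  have := h2 hb
  rw [mem_centralizer_iff] at this
  exact this a trivial

lemma mem_ne {i j : Fin n} (h : j ≠ i) : x j ∈ closure (x '' {j | j ≠ i}) :=
  subset_closure ⟨j, h, rfl⟩

end basic

section simple

variable {n : ℕ} {G : Type*} [Group G] {x : Fin n → G}

lemma Homog.ne_one [Nontrivial G] (hx : Homog x) (i : Fin n) : x i ≠ 1 := by
  intro h
  have hall : ∀ j, x j = 1 := by
    intro j
    obtain ⟨φ, hφ⟩ := hx.perm (Equiv.swap i j)
    have := hφ i
    rw [h, map_one, Equiv.swap_apply_left] at this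
    exact this.symm
  have : closure (Set.range x) = ⊥ := by
    rw [closure_eq_bot_iff]
    rintro _ ⟨j, rfl⟩
    simpa using hall j
  rw [hx.gen] at this
  exact top_ne_bot this

lemma Homog.not_comm [IsSimpleGroup G] (hx : Homog x) (hn : 2 ≤ n) :
    ¬ ∀ a b : G, a * b = b * a := by
  intro hcomm
  let i0 : Fin n := ⟨0, by omega⟩
  let i1 : Fin n := ⟨1, by omega⟩
  have h01 : i1 ≠ i0 := by
    intro h
    have := congrArg Fin.val h
    simp [i0, i1] at this
  have hnorm : (zpowers (x i1)).Normal := by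
    constructor
    intro a ha g
    rw [hcomm g a, mul_assoc, mul_inv_cancel, mul_one]
    exact ha
  have htop : zpowers (x i1) = ⊤ := by
    rcases hnorm.eq_bot_or_eq_top with h | h
    · exact absurd (zpowers_eq_bot.mp h) (hx.ne_one i1)
    · exact h
  obtain ⟨φ, hφ1, hφ2⟩ := hx.tr {j | j ≠ i0} (fun _ => 1) (fun _ => x i1)
    (fun _ => one_mem _) (fun _ => mem_ne h01)
  have h1 := hφ2 i0 (by simp)
  have h2 : φ (x i0) = x i0 := by
    have : x i0 ∈ zpowers (x i1) := by rw [htop]; trivial
    obtain ⟨k, hk⟩ := this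
    rw [← hk]
    simp only [map_zpow]
    rw [hφ1 i1 h01]
  rw [h2] at h1
  have : x i1 = 1 := by
    have h3 : x i0 = x i0 * x i1 := by simpa using h1
    exact (left_eq_mul.mp h3)
  exact hx.ne_one i1 this

/-- the key malnormality lemma -/
lemma Homog.malnormal [IsSimpleGroup G] (hx : Homog x) (hn : 2 ≤ n) (i : Fin n) {u v : G}
    (hu : u ∈ closure (x '' {j | j ≠ i})) (hv : v ∈ closure (x '' {j | j ≠ i}))
    (h : u * x i = x i * v) : u = 1 ∧ v = 1 := by
  set H := closure (x '' {j | j ≠ i}) with hH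
  -- elements of N are central in H
  have hcen : ∀ z ∈ H, ∀ w ∈ H, z * x i = x i * w → ∀ a ∈ H, z * a = a * z := by
    intro z hz w hw hzw a ha
    obtain ⟨φ, hφ1, hφ2⟩ := hx.tr {j | j ≠ i} (fun _ => a) (fun _ => 1)
      (fun _ => ha) (fun _ => one_mem _)
    have h1 := hφ2 i (by simp)
    have hfix := fix_of hφ1
    have h2 := congrArg φ hzw
    rw [map_mul, map_mul, hfix z hz, hfix w hw, h1, mul_one] at h2
    -- h2 : z * (a⁻¹ * x i) = a⁻¹ * x i * w
    have h3 : z * a⁻¹ = a⁻¹ * z := by
      have h4 : z * a⁻¹ * x i = a⁻¹ * z * x i := by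
        rw [mul_assoc, h2, mul_assoc a⁻¹ z, hzw, mul_assoc]
      exact mul_right_cancel h4
    calc z * a = a * (a⁻¹ * z) * a := by group
      _ = a * (z * a⁻¹) * a := by rw [h3]
      _ = a * z := by group
  -- inversion symmetric
  have hinv : ∀ z ∈ H, ∀ w ∈ H, z * x i = x i * w → z * (x i)⁻¹ = (x i)⁻¹ * w := by
    intro z hz w hw hzw
    obtain ⟨φ, hφ1, hφ2⟩ := hx.inv i
    have hfix := fix_of (S := {j | j ≠ i}) (φ := φ) (fun j hj => hφ2 j hj)
    have h2 := congrArg φ hzw
    rw [map_mul, map_mul, hfix z hz, hfix w hw, hφ1] at h2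
    exact h2
  let N : Subgroup G :=
    { carrier := {z | z ∈ H ∧ ∃ w ∈ H, z * x i = x i * w}
      mul_mem' := by
        rintro a b ⟨ha, w, hw, h1⟩ ⟨hb, w', hw', h2⟩
        refine ⟨H.mul_mem ha hb, w * w', H.mul_mem hw hw', ?_⟩
        rw [mul_assoc, h2, ← mul_assoc, h1, mul_assoc]
      one_mem' := ⟨H.one_mem, 1, H.one_mem, by simp⟩
      inv_mem' := by
        rintro a ⟨ha, w, hw, h1⟩
        refine ⟨H.inv_mem ha, w⁻¹, H.inv_mem hw, ?_⟩
        calc a⁻¹ * x i = a⁻¹ * (x i * w) * w⁻¹ := by group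
          _ = a⁻¹ * (a * x i) * w⁻¹ := by rw [h1]
          _ = x i * w⁻¹ := by group }
  have hNmem : ∀ z, z ∈ N ↔ z ∈ H ∧ ∃ w ∈ H, z * x i = x i * w := fun z => Iff.rfl
  have hNnorm : N.Normal := by
    have hle : closure (Set.range x) ≤ normalizer (N : Set G) := by
      rw [closure_le]
      rintro _ ⟨j, rfl⟩
      rw [SetLike.mem_coe, mem_normalizer_iff]
      intro z
      by_cases hj : j = i
      · subst hj
        constructor
        · rintro ⟨hz, w, hw, h1⟩
          have h2 := hinv z hz w hw h1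
          -- z x⁻¹ = x⁻¹ w, so x z x⁻¹ = w
          have h3 : x j * z * (x j)⁻¹ = w := by
            rw [mul_assoc, h2]; group
          rw [h3]
          refine ⟨hw, z, hz, ?_⟩
          rw [← h3]; group
        · rintro ⟨hz, w, hw, h1⟩
          -- x z x⁻¹ * x = x * w → z = w
          have h2 : z = w := by
            have h3 : x j * z = x j * w := by
              rw [← h1]; group
            exact mul_left_cancel h3
          subst h2
          have h2 := hinv _ hz z hw h1
          -- (x z x⁻¹) x⁻¹ = x⁻¹ z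
          refine ⟨hw, x j * z * (x j)⁻¹, hz, ?_⟩
          calc z * x j = x j * ((x j)⁻¹ * z) * x j := by group
            _ = x j * (x j * z * (x j)⁻¹ * (x j)⁻¹) * x j := by rw [h2]
            _ = x j * (x j * z * (x j)⁻¹) := by group
      · have hxj : x j ∈ H := mem_ne hj
        constructor
        · rintro ⟨hz, w, hw, h1⟩
          have h2 := hcen z hz w hw h1 (x j) hxj
          have h3 : x j * z * (x j)⁻¹ = z := by rw [← h2]; group
          rw [h3]
          exact ⟨hz, w, hw, h1⟩
        · rintro ⟨hz, w, hw, h1⟩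
          have h2 := hcen _ hz w hw h1 (x j) hxj
          have h3 : x j * z * (x j)⁻¹ = z := by
            have h4 : x j * z = x j * (x j * z * (x j)⁻¹) := by
              rw [← h2]; group
            have h5 := mul_left_cancel h4
            exact h5.symm
          rw [h3] at hz h1
          exact ⟨hz, w, hw, h1⟩
    rw [hx.gen, top_le_iff] at hle
    exact normalizer_eq_top_iff.mp hle
  have hNbot : N = ⊥ := by
    rcases hNnorm.eq_bot_or_eq_top with h0 | h0
    · exact h0
    · exfalso
      apply hx.not_comm hn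
      intro a b
      have ha : a ∈ N := by rw [h0]; trivial
      have hb : b ∈ N := by rw [h0]; trivial
      obtain ⟨ha1, w, hw, h1⟩ := (hNmem a).mp ha
      exact hcen a ha1 w hw h1 b ((hNmem b).mp hb).1
  have hu1 : u = 1 := by
    have : u ∈ N := ⟨hu, v, hv, h⟩
    rw [hNbot, mem_bot] at this
    exact this
  refine ⟨hu1, ?_⟩
  rw [hu1, one_mul] at h
  exact (left_eq_mul.mp h)

end simple

end Pool.Agent.H5CS
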