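import Pool.Agent.H5CS.Growth

set_option autoImplicit false

namespace Pool.Agent.H5CS

open Subgroup
open scoped commutatorElement

section count

variable {n : ℕ} {G : Type*} [Group G] {x : Fin n → G}

/-- automorphisms `x i ↦ u⁻¹ (x i) v` with `u, v` in the subgroup generated by the others -/
def IsTr (x : Fin n → G) (φ : MulAut G) : Prop :=
  ∃ (i : Fin n) (u v : G), u ∈ closure (x '' {j | j ≠ i}) ∧ v ∈ closure (x '' {j | j ≠ i}) ∧
    (∀ j, j ≠ i → φ (x j) = x j) ∧ φ (x i) = u⁻¹ * x i * v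

lemma Homog.exTr (hx : Homog x) (i : Fin n) {u v : G} (hu : u ∈ closure (x '' {j | j ≠ i}))
    (hv : v ∈ closure (x '' {j | j ≠ i})) :
    ∃ φ : MulAut G, IsTr x φ ∧ (∀ j, j ≠ i → φ (x j) = x j) ∧ φ (x i) = u⁻¹ * x i * v := by
  obtain ⟨φ, h1, h2⟩ := hx.tr {j | j ≠ i} (fun _ => u) (fun _ => v)
    (fun _ => hu) (fun _ => hv)
  exact ⟨φ, ⟨i, u, v, hu, hv, h1, h2 i (by simp)⟩, h1, h2 i (by simp)⟩

/-- members of `E` fixing the first `k` generators -/
def stab (x : Fin n → G) (E : Subgroup (MulAut G)) (k : ℕ) : Subgroup (MulAut G) where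
  carrier := {φ | φ ∈ E ∧ ∀ j : Fin n, j.val < k → φ (x j) = x j}
  mul_mem' := by
    rintro a b ⟨ha, ha'⟩ ⟨hb, hb'⟩
    refine ⟨E.mul_mem ha hb, fun j hj => ?_⟩
    rw [MulAut.mul_apply, hb' j hj, ha' j hj]
  one_mem' := ⟨E.one_mem, fun j _ => rfl⟩
  inv_mem' := by
    rintro a ⟨ha, ha'⟩
    refine ⟨E.inv_mem ha, fun j hj => ?_⟩
    have := ha' j hj
    conv_lhs => rw [← this]
    simp

lemma Homog.exMove (hx : Homog x) (hn : 2 ≤ n) (E : Subgroup (MulAut G))
    (hE : ∀ φ, IsTr x φ → φ ∈ E) {k : ℕ} (hk : k < n) {u v : G} (hu : u ∈ HH x (n - 1))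
    (hv : v ∈ HH x (n - 1)) :
    ∃ g ∈ stab x E k, g (x ⟨k, hk⟩) = u⁻¹ * x ⟨n - 1, by omega⟩ * v := by
  set l : Fin n := ⟨n - 1, by omega⟩ with hl
  have hle : HH x (n - 1) ≤ closure (x '' {j | j ≠ l}) := HH_le_ne (le_refl _)
  obtain ⟨θ, hθt, hθ1, hθ2⟩ := hx.exTr l (hle hu) (hle hv)
  by_cases hkl : k = n - 1
  · refine ⟨θ, ⟨hE _ hθt, fun j hj => hθ1 j ?_⟩, ?_⟩
    · intro h
      rw [h] at hj
      simp only [hl] at hj
      omega
    · have : (⟨k, hk⟩ : Fin n) = l := Fin.ext hkl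
      rw [this]
      exact hθ2
  · set i : Fin n := ⟨k, hk⟩ with hi
    have hil : i ≠ l := by
      intro h
      exact hkl (congrArg Fin.val h)
    obtain ⟨α, hαt, hα1, hα2⟩ := hx.exTr i (one_mem _) (mem_ne (x := x) hil.symm)
    obtain ⟨β, hβt, hβ1, hβ2⟩ := hx.exTr l (mem_ne (x := x) hil) (one_mem _)
    rw [inv_one, one_mul] at hα2
    rw [mul_one] at hβ2
    have h1 : (α * β * α) (x i) = x l := by
      rw [MulAut.mul_apply, MulAut.mul_apply, hα2, map_mul, hβ1 i hil, hβ2]
      rw [mul_inv_cancel_left, hα1 l hil.symm]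
    refine ⟨θ * (α * β * α), ⟨E.mul_mem (hE _ hθt)
      (E.mul_mem (E.mul_mem (hE _ hαt) (hE _ hβt)) (hE _ hαt)), ?_⟩, ?_⟩
    · intro j hj
      have hji : j ≠ i := by
        intro h
        rw [h] at hj
        simp only [hi] at hj
        omega
      have hjl : j ≠ l := by
        intro h
        rw [h] at hj
        simp only [hl] at hj
        omega
      rw [MulAut.mul_apply, MulAut.mul_apply, MulAut.mul_apply, hα1 j hji, hβ1 j hjl, hα1 j hji,
        hθ1 j hjl]
    · rw [MulAut.mul_apply, h1, hθ2]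

lemma finite_mulAut [Finite G] : Finite (MulAut G) :=
  Finite.of_injective (fun φ : MulAut G => (φ : G → G)) DFunLike.coe_injective

lemma Homog.count [Finite G] [IsSimpleGroup G] (hx : Homog x) (hn : 2 ≤ n)
    (E : Subgroup (MulAut G)) (hE : ∀ φ, IsTr x φ → φ ∈ E) :
    (Nat.card (HH x (n - 1)) ^ 2) ^ n ≤ Nat.card E := by
  have := finite_mulAut (G := G)
  set l : Fin n := ⟨n - 1, by omega⟩ with hl
  have hle : HH x (n - 1) ≤ closure (x '' {j | j ≠ l}) := HH_le_ne (le_refl _)
  have hstep : ∀ k, ∀ hk : k < n,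
      Nat.card (HH x (n - 1)) ^ 2 * Nat.card (stab x E (k + 1)) ≤ Nat.card (stab x E k) := by
    intro k hk
    have hex : ∀ p : HH x (n - 1) × HH x (n - 1), ∃ g : stab x E k,
        g.1 (x ⟨k, hk⟩) = p.1.1⁻¹ * x l * p.2.1 := by
      intro p
      obtain ⟨g, hg, hg2⟩ := hx.exMove hn E hE hk p.1.2 p.2.2
      exact ⟨⟨g, hg⟩, hg2⟩
    choose g hg using hex
    have hmono : stab x E (k + 1) ≤ stab x E k := by
      rintro φ ⟨h1, h2⟩
      exact ⟨h1, fun j hj => h2 j (by omega)⟩
    let f : (HH x (n - 1) × HH x (n - 1)) × stab x E (k + 1) → stab x E k :=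
      fun q => g q.1 * ⟨q.2.1, hmono q.2.2⟩
    have hfv : ∀ q, (f q).1 (x ⟨k, hk⟩) = q.1.1.1⁻¹ * x l * q.1.2.1 := by
      rintro ⟨p, ψ⟩
      have h1 : ψ.1 (x ⟨k, hk⟩) = x ⟨k, hk⟩ := ψ.2.2 ⟨k, hk⟩ (by simp)
      change ((g p).1 * ψ.1) (x ⟨k, hk⟩) = _
      rw [MulAut.mul_apply, h1, hg p]
    have hf : Function.Injective f := by
      rintro ⟨p, ψ⟩ ⟨p', ψ'⟩ h
      have h1 := hfv (p, ψ)
      have h2 := hfv (p', ψ')
      rw [h, h2] at h1
      simp only at h1
      -- p'.1⁻¹ x p'.2 = p.1⁻¹ x p.2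
      have h3 : (p.1.1 * p'.1.1⁻¹) * x l = x l * (p.2.1 * p'.2.1⁻¹) := by
        calc (p.1.1 * p'.1.1⁻¹) * x l = p.1.1 * (p'.1.1⁻¹ * x l * p'.2.1) * p'.2.1⁻¹ := by group
          _ = x l * (p.2.1 * p'.2.1⁻¹) := by rw [h1]; group
      have h4 := hx.malnormal hn l (hle (mul_mem p.1.2 (inv_mem p'.1.2)))
        (hle (mul_mem p.2.2 (inv_mem p'.2.2))) h3
      have h5 : p.1 = p'.1 := Subtype.ext (mul_inv_eq_one.mp h4.1)
      have h6 : p.2 = p'.2 := Subtype.ext (mul_inv_eq_one.mp h4.2)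
      have h7 : p = p' := Prod.ext h5 h6
      subst h7
      have h8 : (g p).1 * ψ.1 = (g p).1 * ψ'.1 := congrArg Subtype.val h
      have h9 : ψ = ψ' := Subtype.ext (mul_left_cancel h8)
      subst h9
      rfl
    have := Nat.card_le_card_of_injective f hf
    rw [Nat.card_prod, Nat.card_prod] at this
    rw [pow_two]
    exact this
  have hmain : ∀ m, m ≤ n → (Nat.card (HH x (n - 1)) ^ 2) ^ m ≤ Nat.card (stab x E (n - m)) := by
    intro m
    induction m with
    | zero =>
      intro _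
      rw [pow_zero]
      exact Nat.card_pos
    | succ m ih =>
      intro hm
      have h1 := ih (by omega)
      have h2 := hstep (n - (m + 1)) (by omega)
      have h3 : n - (m + 1) + 1 = n - m := by omega
      rw [h3] at h2
      calc (Nat.card (HH x (n - 1)) ^ 2) ^ (m + 1)
          = Nat.card (HH x (n - 1)) ^ 2 * (Nat.card (HH x (n - 1)) ^ 2) ^ m := by
            rw [pow_succ, mul_comm]
        _ ≤ Nat.card (HH x (n - 1)) ^ 2 * Nat.card (stab x E (n - m)) := by gcongr
        _ ≤ _ := h2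
  have h0 := hmain n le_rfl
  have hle2 : stab x E (n - n) ≤ E := fun φ hφ => hφ.1
  exact h0.trans (Subgroup.card_le_of_le hle2)

lemma Homog.count' [Finite G] [IsSimpleGroup G] (hx : Homog x) (hn : 3 ≤ n)
    (E : Subgroup (MulAut G)) (hE : ∀ φ, IsTr x φ → φ ∈ E) :
    20 ^ (n * 2 ^ (n - 2)) ≤ Nat.card E := by
  have h1 := hx.count (by omega) E hE
  obtain ⟨m, rfl⟩ : ∃ m, n = m + 3 := ⟨n - 3, by omega⟩
  have h2 := hx.card_lower (by omega) (k := m) (by omega)
  have e1 : m + 3 - 1 = m + 2 := by omega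
  have e2 : m + 3 - 2 = m + 1 := by omega
  rw [e1] at h1
  rw [e2]
  calc 20 ^ ((m + 3) * 2 ^ (m + 1)) = ((20 ^ (2 ^ m)) ^ 2) ^ (m + 3) := by
        rw [← pow_mul, ← pow_mul]; congr 1; ring
    _ ≤ (Nat.card (HH x (m + 2)) ^ 2) ^ (m + 3) := by gcongr
    _ ≤ _ := h1

/-- The subgroup generated by the transvection type automorphisms is perfect. -/
lemma Homog.perfect (hx : Homog x) (hn : 3 ≤ n) :
    ∀ φ, IsTr x φ → φ ∈ ⁅closure {φ | IsTr x φ}, closure {φ | IsTr x φ}⁆ := by
  set E := closure {φ : MulAut G | IsTr x φ} with hE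
  have hthird : ∀ i j : Fin n, ∃ k : Fin n, k ≠ i ∧ k ≠ j := by
    intro i j
    have : ∃ k : Fin n, k ∉ ({i, j} : Finset (Fin n)) := by
      by_contra hcon
      push Not at hcon
      have h1 : (Finset.univ : Finset (Fin n)) ⊆ {i, j} := fun k _ => hcon k
      have h2 := Finset.card_le_card h1
      have h3 : ({i, j} : Finset (Fin n)).card ≤ 2 := Finset.card_le_two
      rw [Finset.card_univ, Fintype.card_fin] at h2
      omega
    obtain ⟨k, hk⟩ := this
    simp only [Finset.mem_insert, Finset.mem_singleton, not_or] at hk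
    exact ⟨k, hk.1, hk.2⟩
  -- right multiplications
  have hright : ∀ i : Fin n, ∀ v ∈ closure (x '' {j | j ≠ i}), ∀ φ : MulAut G,
      (∀ j, j ≠ i → φ (x j) = x j) → φ (x i) = x i * v → φ ∈ ⁅E, E⁆ := by
    intro i v hv
    refine closure_induction (p := fun v _ => ∀ φ : MulAut G,
      (∀ j, j ≠ i → φ (x j) = x j) → φ (x i) = x i * v → φ ∈ ⁅E, E⁆) ?_ ?_ ?_ ?_ hv
    · rintro _ ⟨j, hj, rfl⟩ φ hφ1 hφ2
      obtain ⟨k, hki, hkj⟩ := hthird i j
      have hj' : j ≠ i := hj
      obtain ⟨a, hat, ha1, ha2⟩ := hx.exTr i (one_mem _) (mem_ne (x := x) hki)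
      obtain ⟨b, hbt, hb1, hb2⟩ := hx.exTr k (one_mem _) (mem_ne (x := x) hkj.symm)
      rw [inv_one, one_mul] at ha2 hb2
      have haE : a ∈ E := Subgroup.subset_closure hat
      have hbE : b ∈ E := Subgroup.subset_closure hbt
      have hai : a⁻¹ (x i) = x i * (x k)⁻¹ := by
        rw [← a.injective.eq_iff, MulAut.apply_inv_self, map_mul, map_inv, ha2, ha1 k hki]
        group
      have haj : ∀ m, m ≠ i → a⁻¹ (x m) = x m := by
        intro m hm
        rw [← a.injective.eq_iff, MulAut.apply_inv_self, ha1 m hm]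
      have hbk : b⁻¹ (x k) = x k * (x j)⁻¹ := by
        rw [← b.injective.eq_iff, MulAut.apply_inv_self, map_mul, map_inv, hb2, hb1 j hkj.symm]
        group
      have hbm : ∀ m, m ≠ k → b⁻¹ (x m) = x m := by
        intro m hm
        rw [← b.injective.eq_iff, MulAut.apply_inv_self, hb1 m hm]
      have : φ = ⁅b⁻¹, a⁻¹⁆ := by
        rw [commutatorElement_def, inv_inv, inv_inv]
        apply hx.ext
        intro m
        rw [MulAut.mul_apply, MulAut.mul_apply, MulAut.mul_apply]
        by_cases hmi : m = i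
        · subst hmi
          have s2 : b (x m * x k) = x m * (x k * x j) := by
            rw [map_mul, hb1 m hki.symm, hb2]
          have s3 : a⁻¹ (x m * (x k * x j)) = x m * x j := by
            rw [map_mul, map_mul, hai, haj k hki, haj j hj']; group
          have s4 : b⁻¹ (x m * x j) = x m * x j := by
            rw [map_mul, hbm m hki.symm, hbm j hkj.symm]
          rw [hφ2, ha2, s2, s3, s4]
        · rw [hφ1 m hmi, ha1 m hmi]
          by_cases hmk : m = k
          · subst hmk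
            rw [hb2, map_mul, haj m hki, haj j hj', map_mul, hbk, hbm j hkj.symm]
            group
          · rw [hb1 m hmk, haj m hmi, hbm m hmk]
      rw [this]
      exact commutator_mem_commutator (E.inv_mem hbE) (E.inv_mem haE)
    · intro φ hφ1 hφ2
      have : φ = 1 := by
        apply hx.ext
        intro m
        by_cases hm : m = i
        · subst hm; rw [hφ2]; simp
        · rw [hφ1 m hm]; simp
      rw [this]
      exact one_mem _
    · intro v w hv hw ihv ihw φ hφ1 hφ2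
      obtain ⟨a, hat, ha1, ha2⟩ := hx.exTr i (one_mem _) hv
      obtain ⟨b, hbt, hb1, hb2⟩ := hx.exTr i (one_mem _) hw
      rw [inv_one, one_mul] at ha2 hb2
      have hfix := fix_of (S := {j | j ≠ i}) (φ := a) (fun j hj => ha1 j hj)
      have : φ = a * b := by
        apply hx.ext
        intro m
        rw [MulAut.mul_apply]
        by_cases hm : m = i
        · subst hm
          rw [hφ2, hb2, map_mul, ha2, hfix w hw, mul_assoc]
        · rw [hφ1 m hm, hb1 m hm, ha1 m hm]
      rw [this]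
      exact mul_mem (ihv a ha1 ha2) (ihw b hb1 hb2)
    · intro v hv ihv φ hφ1 hφ2
      have hfix := fix_of (S := {j | j ≠ i}) (φ := φ) (fun j hj => hφ1 j hj)
      have h1 : φ⁻¹ ∈ ⁅E, E⁆ := by
        apply ihv
        · intro j hj
          rw [← φ.injective.eq_iff, MulAut.apply_inv_self, hφ1 j hj]
        · rw [← φ.injective.eq_iff, MulAut.apply_inv_self, map_mul, hφ2, hfix v hv]
          group
      have := inv_mem h1
      rwa [inv_inv] at this
  have hleft : ∀ i : Fin n, ∀ v ∈ closure (x '' {j | j ≠ i}), ∀ φ : MulAut G,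
      (∀ j, j ≠ i → φ (x j) = x j) → φ (x i) = v * x i → φ ∈ ⁅E, E⁆ := by
    intro i v hv
    refine closure_induction (p := fun v _ => ∀ φ : MulAut G,
      (∀ j, j ≠ i → φ (x j) = x j) → φ (x i) = v * x i → φ ∈ ⁅E, E⁆) ?_ ?_ ?_ ?_ hv
    · rintro _ ⟨j, hj, rfl⟩ φ hφ1 hφ2
      obtain ⟨k, hki, hkj⟩ := hthird i j
      have hj' : j ≠ i := hj
      obtain ⟨a, hat, ha1, ha2⟩ := hx.exTr i (inv_mem (mem_ne (x := x) hki)) (one_mem _)
      obtain ⟨b, hbt, hb1, hb2⟩ := hx.exTr k (inv_mem (mem_ne (x := x) hkj.symm)) (one_mem _)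
      rw [inv_inv, mul_one] at ha2 hb2
      have haE : a ∈ E := Subgroup.subset_closure hat
      have hbE : b ∈ E := Subgroup.subset_closure hbt
      have hai : a⁻¹ (x i) = (x k)⁻¹ * x i := by
        rw [← a.injective.eq_iff, MulAut.apply_inv_self, map_mul, map_inv, ha2, ha1 k hki]
        group
      have haj : ∀ m, m ≠ i → a⁻¹ (x m) = x m := by
        intro m hm
        rw [← a.injective.eq_iff, MulAut.apply_inv_self, ha1 m hm]
      have hbk : b⁻¹ (x k) = (x j)⁻¹ * x k := by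
        rw [← b.injective.eq_iff, MulAut.apply_inv_self, map_mul, map_inv, hb2, hb1 j hkj.symm]
        group
      have hbm : ∀ m, m ≠ k → b⁻¹ (x m) = x m := by
        intro m hm
        rw [← b.injective.eq_iff, MulAut.apply_inv_self, hb1 m hm]
      have : φ = ⁅b⁻¹, a⁻¹⁆ := by
        rw [commutatorElement_def, inv_inv, inv_inv]
        apply hx.ext
        intro m
        rw [MulAut.mul_apply, MulAut.mul_apply, MulAut.mul_apply]
        by_cases hmi : m = i
        · subst hmi
          have s2 : b (x k * x m) = x j * x k * x m := by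
            rw [map_mul, hb1 m hki.symm, hb2]
          have s3 : a⁻¹ (x j * x k * x m) = x j * x m := by
            rw [map_mul, map_mul, hai, haj k hki, haj j hj']; group
          have s4 : b⁻¹ (x j * x m) = x j * x m := by
            rw [map_mul, hbm m hki.symm, hbm j hkj.symm]
          rw [hφ2, ha2, s2, s3, s4]
        · rw [hφ1 m hmi, ha1 m hmi]
          by_cases hmk : m = k
          · subst hmk
            rw [hb2, map_mul, haj m hki, haj j hj', map_mul, hbk, hbm j hkj.symm]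
            group
          · rw [hb1 m hmk, haj m hmi, hbm m hmk]
      rw [this]
      exact commutator_mem_commutator (E.inv_mem hbE) (E.inv_mem haE)
    · intro φ hφ1 hφ2
      have : φ = 1 := by
        apply hx.ext
        intro m
        by_cases hm : m = i
        · subst hm; rw [hφ2]; simp
        · rw [hφ1 m hm]; simp
      rw [this]
      exact one_mem _
    · intro v w hv hw ihv ihw φ hφ1 hφ2
      obtain ⟨a, hat, ha1, ha2⟩ := hx.exTr i (inv_mem hv) (one_mem _)
      obtain ⟨b, hbt, hb1, hb2⟩ := hx.exTr i (inv_mem hw) (one_mem _)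
      rw [inv_inv, mul_one] at ha2 hb2
      have hfix := fix_of (S := {j | j ≠ i}) (φ := b) (fun j hj => hb1 j hj)
      have : φ = b * a := by
        apply hx.ext
        intro m
        rw [MulAut.mul_apply]
        by_cases hm : m = i
        · subst hm
          rw [hφ2, ha2, map_mul, hb2, hfix v hv, mul_assoc]
        · rw [hφ1 m hm, ha1 m hm, hb1 m hm]
      rw [this]
      exact mul_mem (ihw b hb1 hb2) (ihv a ha1 ha2)
    · intro v hv ihv φ hφ1 hφ2
      have hfix := fix_of (S := {j | j ≠ i}) (φ := φ) (fun j hj => hφ1 j hj)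
      have h1 : φ⁻¹ ∈ ⁅E, E⁆ := by
        apply ihv
        · intro j hj
          rw [← φ.injective.eq_iff, MulAut.apply_inv_self, hφ1 j hj]
        · rw [← φ.injective.eq_iff, MulAut.apply_inv_self, map_mul, hφ2, hfix v hv]
          group
      have := inv_mem h1
      rwa [inv_inv] at this
  rintro φ ⟨i, u, v, hu, hv, hφ1, hφ2⟩
  obtain ⟨a, hat, ha1, ha2⟩ := hx.exTr i hu (one_mem _)
  obtain ⟨b, hbt, hb1, hb2⟩ := hx.exTr i (one_mem _) hv
  rw [inv_one, one_mul] at hb2
  rw [mul_one] at ha2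
  have hfix := fix_of (S := {j | j ≠ i}) (φ := a) (fun j hj => ha1 j hj)
  have : φ = a * b := by
    apply hx.ext
    intro m
    rw [MulAut.mul_apply]
    by_cases hm : m = i
    · subst hm
      rw [hφ2, hb2, map_mul, ha2, hfix v hv]
    · rw [hφ1 m hm, hb1 m hm, ha1 m hm]
  rw [this]
  exact mul_mem (hleft i _ (inv_mem hu) a ha1 ha2) (hright i v hv b hb1 hb2)

end count

end Pool.Agent.H5CS
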