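import Pool.Agent.H5CS.Theta

set_option autoImplicit false

namespace Pool.Agent.H5CS

open Subgroup

section free

variable {n : ℕ}

/-- images of the free generators -/
def gens (Δ : Subgroup (FreeGroup (Fin n))) [Δ.Normal] (i : Fin n) : FreeGroup (Fin n) ⧸ Δ :=
  QuotientGroup.mk (FreeGroup.of i)

/-- an automorphism of the free group induces one of the quotient by a characteristic subgroup -/
lemma exists_induced (Δ : Subgroup (FreeGroup (Fin n))) [Δ.Characteristic]
    (σ : MulAut (FreeGroup (Fin n))) :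
    ∃ φ : MulAut (FreeGroup (Fin n) ⧸ Δ), ∀ w : FreeGroup (Fin n),
      φ (QuotientGroup.mk w) = QuotientGroup.mk (σ w) := by
  have h : Δ.map σ.toMonoidHom = Δ := Subgroup.characteristic_iff_map_eq.mp inferInstance σ
  exact ⟨QuotientGroup.congr Δ Δ σ h, fun w => rfl⟩

lemma exists_aut (σ τ : FreeGroup (Fin n) →* FreeGroup (Fin n))
    (h1 : ∀ i, σ (τ (FreeGroup.of i)) = FreeGroup.of i)
    (h2 : ∀ i, τ (σ (FreeGroup.of i)) = FreeGroup.of i) :
    ∃ e : MulAut (FreeGroup (Fin n)), ∀ w, e w = σ w := by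
  refine ⟨σ.toMulEquiv τ ?_ ?_, fun w => rfl⟩
  · ext i; simpa using h2 i
  · ext i; simpa using h1 i

lemma homog_gens (Δ : Subgroup (FreeGroup (Fin n))) [Δ.Characteristic] :
    Homog (gens Δ) := by
  refine ⟨?_, ?_, ?_, ?_⟩
  · have h1 : Set.range (gens Δ) = (QuotientGroup.mk' Δ) '' (Set.range FreeGroup.of) := by
      ext g
      constructor
      · rintro ⟨i, rfl⟩
        exact ⟨_, ⟨i, rfl⟩, rfl⟩
      · rintro ⟨_, ⟨i, rfl⟩, rfl⟩
        exact ⟨i, rfl⟩
    rw [h1, ← MonoidHom.map_closure, FreeGroup.closure_range_of, ← MonoidHom.range_eq_map]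
    exact MonoidHom.range_eq_top.mpr (QuotientGroup.mk'_surjective Δ)
  · intro s
    obtain ⟨φ, hφ⟩ := exists_induced Δ (FreeGroup.freeGroupCongr s)
    refine ⟨φ, fun i => ?_⟩
    unfold gens
    rw [hφ]
    congr 1
  · intro i
    let σ : FreeGroup (Fin n) →* FreeGroup (Fin n) :=
      FreeGroup.lift (fun j => if j = i then (FreeGroup.of i)⁻¹ else FreeGroup.of j)
    have hσ : ∀ j, σ (FreeGroup.of j) =
        if j = i then (FreeGroup.of i)⁻¹ else FreeGroup.of j := fun j => by
      simp [σ]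
    have hσσ : ∀ j, σ (σ (FreeGroup.of j)) = FreeGroup.of j := by
      intro j
      rw [hσ]
      by_cases h : j = i
      · subst h
        rw [if_pos rfl, map_inv, hσ, if_pos rfl, inv_inv]
      · rw [if_neg h, hσ, if_neg h]
    obtain ⟨e, he⟩ := exists_aut σ σ hσσ hσσ
    obtain ⟨φ, hφ⟩ := exists_induced Δ e
    refine ⟨φ, ?_, ?_⟩
    · unfold gens
      rw [hφ, he, hσ, if_pos rfl]
      rfl
    · intro j hj
      unfold gens
      rw [hφ, he, hσ, if_neg hj]
  · intro S u v hu hv
    have hlift : ∀ g ∈ closure (gens Δ '' S),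
        ∃ w ∈ closure (FreeGroup.of '' S), (QuotientGroup.mk w : FreeGroup (Fin n) ⧸ Δ) = g := by
      intro g hg
      have h1 : gens Δ '' S = (QuotientGroup.mk' Δ) '' (FreeGroup.of '' S) := by
        rw [Set.image_image]
        rfl
      rw [h1, ← MonoidHom.map_closure] at hg
      obtain ⟨w, hw, hwg⟩ := hg
      exact ⟨w, hw, hwg⟩
    choose U hU1 hU2 using fun i => hlift (u i) (hu i)
    choose V hV1 hV2 using fun i => hlift (v i) (hv i)
    classical
    let σ : FreeGroup (Fin n) →* FreeGroup (Fin n) :=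
      FreeGroup.lift (fun j => if j ∈ S then FreeGroup.of j else (U j)⁻¹ * FreeGroup.of j * V j)
    let τ : FreeGroup (Fin n) →* FreeGroup (Fin n) :=
      FreeGroup.lift (fun j => if j ∈ S then FreeGroup.of j else U j * FreeGroup.of j * (V j)⁻¹)
    have hσ : ∀ j, σ (FreeGroup.of j) =
        if j ∈ S then FreeGroup.of j else (U j)⁻¹ * FreeGroup.of j * V j := fun j => by
      simp [σ]
    have hτ : ∀ j, τ (FreeGroup.of j) =
        if j ∈ S then FreeGroup.of j else U j * FreeGroup.of j * (V j)⁻¹ := fun j => by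
      simp [τ]
    have hσfix : ∀ w ∈ closure (FreeGroup.of '' S), σ w = w := by
      intro w hw
      have h1 : Set.EqOn σ (MonoidHom.id _) (closure (FreeGroup.of '' S)) := by
        apply MonoidHom.eqOn_closure
        rintro _ ⟨j, hj, rfl⟩
        rw [hσ, if_pos hj]; rfl
      exact h1 hw
    have hτfix : ∀ w ∈ closure (FreeGroup.of '' S), τ w = w := by
      intro w hw
      have h1 : Set.EqOn τ (MonoidHom.id _) (closure (FreeGroup.of '' S)) := by
        apply MonoidHom.eqOn_closure
        rintro _ ⟨j, hj, rfl⟩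
        rw [hτ, if_pos hj]; rfl
      exact h1 hw
    have h1 : ∀ j, σ (τ (FreeGroup.of j)) = FreeGroup.of j := by
      intro j
      rw [hτ]
      by_cases h : j ∈ S
      · rw [if_pos h, hσ, if_pos h]
      · rw [if_neg h, map_mul, map_mul, map_inv, hσ, if_neg h, hσfix _ (hU1 j),
          hσfix _ (hV1 j)]
        group
    have h2 : ∀ j, τ (σ (FreeGroup.of j)) = FreeGroup.of j := by
      intro j
      rw [hσ]
      by_cases h : j ∈ S
      · rw [if_pos h, hτ, if_pos h]
      · rw [if_neg h, map_mul, map_mul, map_inv, hτ, if_neg h, hτfix _ (hU1 j),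
          hτfix _ (hV1 j)]
        group
    obtain ⟨e, he⟩ := exists_aut σ τ h1 h2
    obtain ⟨φ, hφ⟩ := exists_induced Δ e
    refine ⟨φ, ?_, ?_⟩
    · intro j hj
      unfold gens
      rw [hφ, he, hσ, if_pos hj]
    · intro j hj
      unfold gens
      rw [hφ, he, hσ, if_neg hj, ← hU2 j, ← hV2 j]
      rfl

end free

end Pool.Agent.H5CS
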