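import Pool.Agent.H5CS.Three

set_option autoImplicit false

namespace Pool.Agent.H5CS

open Subgroup

section growth

variable {n : ℕ} {G : Type*} [Group G] {x : Fin n → G}

/-- the subgroup generated by the first `k` generators -/
def HH (x : Fin n → G) (k : ℕ) : Subgroup G := closure (x '' {j : Fin n | j.val < k})

lemma HH_mono {k l : ℕ} (h : k ≤ l) : HH x k ≤ HH x l := by
  apply Subgroup.closure_mono
  apply Set.image_mono
  intro j hj
  exact lt_of_lt_of_le hj h

lemma mem_HH {k : ℕ} {i : Fin n} (h : i.val < k) : x i ∈ HH x k :=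
  Subgroup.subset_closure ⟨i, h, rfl⟩

lemma HH_le_ne {k : ℕ} {i : Fin n} (h : k ≤ i.val) :
    HH x k ≤ closure (x '' {j | j ≠ i}) := by
  apply Subgroup.closure_mono
  apply Set.image_mono
  intro j hj hji
  subst hji
  exact absurd hj (by simpa using h)

lemma HH_succ {k : ℕ} (hk : k < n) : HH x (k + 1) = HH x k ⊔ closure {x ⟨k, hk⟩} := by
  unfold HH
  rw [← Subgroup.closure_union]
  congr 1
  ext g
  simp only [Set.mem_image, Set.mem_ofPred_eq, Set.union_singleton, Set.mem_insert_iff]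
  constructor
  · rintro ⟨j, hj, rfl⟩
    rcases Nat.lt_succ_iff_lt_or_eq.mp hj with h | h
    · exact Or.inr ⟨j, h, rfl⟩
    · left; congr 1; exact Fin.ext h
  · rintro (rfl | ⟨j, hj, rfl⟩)
    · exact ⟨⟨k, hk⟩, by simp, rfl⟩
    · exact ⟨j, by omega, rfl⟩

lemma HH_zero : HH x 0 = ⊥ := by
  unfold HH
  simp

lemma HH_top (hx : Homog x) : HH x n = ⊤ := by
  rw [← hx.gen]
  unfold HH
  congr 1
  ext g
  simp

lemma Homog.order_eq (hx : Homog x) (i j : Fin n) : orderOf (x i) = orderOf (x j) := by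
  obtain ⟨φ, hφ⟩ := hx.perm (Equiv.swap i j)
  have := hφ i
  rw [Equiv.swap_apply_left] at this
  rw [← this]
  exact (orderOf_injective φ.toMonoidHom φ.injective (x i)).symm

lemma Homog.order_tr (hx : Homog x) (i : Fin n) {u v : G}
    (hu : u ∈ closure (x '' {j | j ≠ i})) (hv : v ∈ closure (x '' {j | j ≠ i})) :
    orderOf (u⁻¹ * x i * v) = orderOf (x i) := by
  obtain ⟨φ, hφ1, hφ2⟩ := hx.tr {j | j ≠ i} (fun _ => u) (fun _ => v)
    (fun _ => hu) (fun _ => hv)
  have := hφ2 i (by simp)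
  rw [← this]
  exact orderOf_injective φ.toMonoidHom φ.injective (x i)

lemma Homog.pow_tr (hx : Homog x) (i : Fin n) {u v : G}
    (hu : u ∈ closure (x '' {j | j ≠ i})) (hv : v ∈ closure (x '' {j | j ≠ i})) (m : ℕ)
    (h : x i ^ m = 1) :
    (u⁻¹ * x i * v) ^ m = 1 := by
  rw [← orderOf_dvd_iff_pow_eq_one, hx.order_tr i hu hv, orderOf_dvd_iff_pow_eq_one]
  exact h

lemma Homog.not_commute [IsSimpleGroup G] (hx : Homog x) (hn : 2 ≤ n) {i j : Fin n}
    (hij : i ≠ j) : x i * x j ≠ x j * x i := by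
  intro h
  apply hx.not_comm hn
  apply comm_of_gen hx.gen
  intro k l
  by_cases hkl : k = l
  · rw [hkl]
  -- permutation sending i ↦ k, j ↦ l
  obtain ⟨s, hs1, hs2⟩ : ∃ s : Equiv.Perm (Fin n), s i = k ∧ s j = l := by
    refine ⟨Equiv.swap (Equiv.swap i k j) l * Equiv.swap i k, ?_, ?_⟩
    · rw [Equiv.Perm.mul_apply, Equiv.swap_apply_left, Equiv.swap_apply_of_ne_of_ne]
      · intro h1
        have h2 : Equiv.swap i k i = Equiv.swap i k j := by
          rw [Equiv.swap_apply_left]; exact h1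
        exact hij ((Equiv.swap i k).injective h2)
      · exact hkl
    · rw [Equiv.Perm.mul_apply, Equiv.swap_apply_left]
  obtain ⟨φ, hφ⟩ := hx.perm s
  have := congrArg φ h
  rw [map_mul, map_mul, hφ, hφ, hs1, hs2] at this
  exact this

lemma Homog.four_le_order [Finite G] [IsSimpleGroup G] (hx : Homog x) (hn : 2 ≤ n) (i : Fin n) :
    4 ≤ orderOf (x i) := by
  by_contra hlt
  push Not at hlt
  have hpos : 0 < orderOf (x i) := orderOf_pos (x i)
  have hne1 : orderOf (x i) ≠ 1 := by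
    rw [Ne, orderOf_eq_one_iff]
    exact hx.ne_one i
  have hcases : orderOf (x i) = 2 ∨ orderOf (x i) = 3 := by omega
  rcases hcases with h | h
  · -- order two
    have hsq : ∀ j, x j * x j = 1 := by
      intro j
      have := hx.order_eq i j
      rw [h] at this
      rw [← pow_two, this, pow_orderOf_eq_one]
    apply hx.not_comm hn
    apply comm_of_gen hx.gen
    intro k l
    by_cases hkl : k = l
    · rw [hkl]
    have h1 : x k ^ 2 = 1 := by rw [pow_two]; exact hsq k
    have h2 := hx.pow_tr k (one_mem _) (mem_ne (x := x) (Ne.symm hkl)) 2 h1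
    rw [inv_one, one_mul, pow_two] at h2
    -- (x k x l) (x k x l) = 1
    calc x k * x l = x k * (x k * x l * (x k * x l)) * x l := by rw [h2, mul_one]
      _ = (x k * x k) * (x l * x k) * (x l * x l) := by group
      _ = x l * x k := by rw [hsq, hsq, one_mul, mul_one]
  · -- order three
    have hcube : ∀ j, x j ^ 3 = 1 := by
      intro j
      have := hx.order_eq i j
      rw [h] at this
      rw [this, pow_orderOf_eq_one]
    have hexp : ∀ k, k ≤ n → ∀ g ∈ HH x k, g ^ 3 = 1 := by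
      intro k
      induction k with
      | zero =>
        intro _ g hg
        rw [HH_zero, mem_bot] at hg
        rw [hg, one_pow]
      | succ k ih =>
        intro hk
        have hk' : k < n := hk
        rw [HH_succ hk']
        apply three_step _ _ (ih hk'.le) (hcube _)
        · intro w hw
          have hw' := HH_le_ne (i := ⟨k, hk'⟩) (le_refl k) hw
          have := hx.pow_tr ⟨k, hk'⟩ (one_mem _) hw' 3 (hcube _)
          simpa using this
        · intro w hw
          have hw' := HH_le_ne (i := ⟨k, hk'⟩) (le_refl k) hw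
          have := hx.pow_tr ⟨k, hk'⟩ hw' (one_mem _) 3 (hcube _)
          rw [mul_one] at this
          have h3 : ((w⁻¹ * x ⟨k, hk'⟩) ^ 3)⁻¹ = 1 := by rw [this, inv_one]
          rw [← inv_pow] at h3
          have h4 : (w⁻¹ * x ⟨k, hk'⟩)⁻¹ = (x ⟨k, hk'⟩)⁻¹ * w := by group
          rwa [h4] at h3
    have hall : ∀ g : G, g ^ 3 = 1 := by
      intro g
      apply hexp n le_rfl
      rw [HH_top hx]; trivial
    have hp : IsPGroup 3 G := by
      intro g
      exact ⟨1, by rw [pow_one]; exact hall g⟩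
    have : Fact (Nat.Prime 3) := ⟨Nat.prime_three⟩
    have := hp.center_nontrivial
    have hc : center G = ⊤ := by
      rcases (inferInstance : (center G).Normal).eq_bot_or_eq_top with h0 | h0
      · exfalso
        have : Nontrivial (center G) := inferInstance
        rw [h0] at this
        exact not_nontrivial _ this
      · exact h0
    apply hx.not_comm hn
    intro a b
    have ha : a ∈ center G := by rw [hc]; trivial
    rw [mem_center_iff] at ha
    exact (ha b).symm

lemma Homog.mem_not_mem [IsSimpleGroup G] (hx : Homog x) (hn : 2 ≤ n) {k : ℕ} (hk1 : 1 ≤ k)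
    (hk : k < n) : x ⟨k, hk⟩ ∉ HH x k := by
  intro h
  have hle : HH x k ≤ closure (x '' {j | j ≠ ⟨k, hk⟩}) := HH_le_ne (le_refl k)
  have h0 : x ⟨0, by omega⟩ ∈ HH x k := mem_HH (by change 0 < k; omega)
  have h1 : (x ⟨k, hk⟩)⁻¹ * x ⟨0, by omega⟩ * x ⟨k, hk⟩ ∈ HH x k :=
    mul_mem (mul_mem (inv_mem h) h0) h
  have := (hx.malnormal hn ⟨k, hk⟩ (hle h0) (hle h1) (by group)).1
  exact hx.ne_one _ this

lemma Homog.growth [Finite G] [IsSimpleGroup G] (hx : Homog x) (hn : 2 ≤ n) {k : ℕ}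
    (hk1 : 1 ≤ k) (hk : k < n) :
    Nat.card (HH x k) ^ 2 + Nat.card (HH x k) ≤ Nat.card (HH x (k + 1)) := by
  have hle : HH x k ≤ closure (x '' {j | j ≠ ⟨k, hk⟩}) := HH_le_ne (le_refl k)
  have hxk : x ⟨k, hk⟩ ∈ HH x (k + 1) := mem_HH (by simp)
  have hm : HH x k ≤ HH x (k + 1) := HH_mono (Nat.le_succ k)
  let f : (HH x k × HH x k) ⊕ HH x k → HH x (k + 1) := fun t => match t with
    | Sum.inl p => ⟨p.1.1 * x ⟨k, hk⟩ * p.2.1, mul_mem (mul_mem (hm p.1.2) hxk) (hm p.2.2)⟩
    | Sum.inr w => ⟨w.1, hm w.2⟩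
  have hnm := hx.mem_not_mem hn hk1 hk
  have hf : Function.Injective f := by
    rintro (⟨⟨u, hu⟩, ⟨v, hv⟩⟩ | ⟨w, hw⟩) (⟨⟨u', hu'⟩, ⟨v', hv'⟩⟩ | ⟨w', hw'⟩) h
    · simp only [f, Subtype.mk.injEq] at h
      have h1 : u'⁻¹ * u * x ⟨k, hk⟩ = x ⟨k, hk⟩ * (v' * v⁻¹) := by
        calc u'⁻¹ * u * x ⟨k, hk⟩ = u'⁻¹ * (u * x ⟨k, hk⟩ * v) * v⁻¹ := by group
          _ = x ⟨k, hk⟩ * (v' * v⁻¹) := by rw [h]; group
      have h2 := hx.malnormal hn ⟨k, hk⟩ (hle (mul_mem (inv_mem hu') hu))
        (hle (mul_mem hv' (inv_mem hv))) h1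
      have h3 : u = u' := by
        have := h2.1
        rw [inv_mul_eq_one] at this
        exact this.symm
      have h4 : v = v' := by
        have := h2.2
        rw [mul_inv_eq_one] at this
        exact this.symm
      subst h3; subst h4; rfl
    · exfalso
      simp only [f, Subtype.mk.injEq] at h
      apply hnm
      have : x ⟨k, hk⟩ = u⁻¹ * w' * v⁻¹ := by rw [← h]; group
      rw [this]
      exact mul_mem (mul_mem (inv_mem hu) hw') (inv_mem hv)
    · exfalso
      simp only [f, Subtype.mk.injEq] at h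
      apply hnm
      have : x ⟨k, hk⟩ = u'⁻¹ * w * v'⁻¹ := by rw [h]; group
      rw [this]
      exact mul_mem (mul_mem (inv_mem hu') hw) (inv_mem hv')
    · simp only [f, Subtype.mk.injEq] at h
      subst h; rfl
  have := Nat.card_le_card_of_injective f hf
  rw [Nat.card_sum, Nat.card_prod] at this
  rw [pow_two]
  exact this

lemma Homog.card_one [Finite G] [IsSimpleGroup G] (hx : Homog x) (hn : 2 ≤ n) :
    4 ≤ Nat.card (HH x 1) := by
  have h4 := hx.four_le_order hn ⟨0, by omega⟩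
  have : zpowers (x ⟨0, by omega⟩) ≤ HH x 1 := by
    rw [zpowers_le]
    exact mem_HH (by simp)
  calc 4 ≤ orderOf (x ⟨0, by omega⟩) := h4
    _ = Nat.card (zpowers (x ⟨0, by omega⟩)) := (Nat.card_zpowers _).symm
    _ ≤ Nat.card (HH x 1) := Subgroup.card_le_of_le this

lemma Homog.card_lower [Finite G] [IsSimpleGroup G] (hx : Homog x) (hn : 2 ≤ n) {k : ℕ}
    (hk : k + 2 ≤ n) : 20 ^ (2 ^ k) ≤ Nat.card (HH x (k + 2)) := by
  induction k with
  | zero =>
    have h1 := hx.card_one hn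
    have h2 := hx.growth hn (k := 1) le_rfl (by omega)
    simp only [pow_zero, pow_one]
    have h3 : (4 : ℕ) ^ 2 + 4 ≤ Nat.card (HH x 1) ^ 2 + Nat.card (HH x 1) := by
      gcongr
    calc 20 = 4 ^ 2 + 4 := by norm_num
      _ ≤ _ := h3
      _ ≤ _ := h2
  | succ k ih =>
    have h1 := ih (by omega)
    have h2 := hx.growth hn (k := k + 2) (by omega) (by omega)
    calc 20 ^ (2 ^ (k + 1)) = (20 ^ (2 ^ k)) ^ 2 := by rw [← pow_mul, pow_succ]
      _ ≤ Nat.card (HH x (k + 2)) ^ 2 := by gcongr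
      _ ≤ Nat.card (HH x (k + 2)) ^ 2 + Nat.card (HH x (k + 2)) := Nat.le_add_right _ _
      _ ≤ _ := h2

end growth

end Pool.Agent.H5CS
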