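import Pool.Agent.H5CS.Count

set_option autoImplicit false

namespace Pool.Agent.H5CS

open Subgroup
open scoped commutatorElement

section theta

variable {n : ℕ} {G : Type*} [Group G] {x : Fin n → G}

/-- reading off the coordinate of index `i` from a family indexed by `Fin (n - k)` -/
def rd {n k : ℕ} {H : Type*} (f : Fin (n - k) → H) (i : Fin n) (h : k ≤ i.val) : H :=
  f ⟨i.val - k, by omega⟩

lemma Homog.exTheta (hx : Homog x) (k : ℕ) (f : Fin (n - k) → HH x k × HH x k) :
    ∃ φ : MulAut G, (∀ j : Fin n, j.val < k → φ (x j) = x j) ∧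
      ∀ (i : Fin n) (h : k ≤ i.val),
        φ (x i) = ((rd f i h).1 : G)⁻¹ * x i * ((rd f i h).2 : G) := by
  obtain ⟨φ, h1, h2⟩ := hx.tr {j | j.val < k}
    (fun i => if h : k ≤ i.val then ((rd f i h).1 : G) else 1)
    (fun i => if h : k ≤ i.val then ((rd f i h).2 : G) else 1)
    (fun i => by
      by_cases h : k ≤ i.val
      · simp only [h, dif_pos]; exact (rd f i h).1.2
      · simp only [h, dif_neg, not_false_eq_true]; exact one_mem _)
    (fun i => by
      by_cases h : k ≤ i.val
      · simp only [h, dif_pos]; exact (rd f i h).2.2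
      · simp only [h, dif_neg, not_false_eq_true]; exact one_mem _)
  refine ⟨φ, h1, fun i h => ?_⟩
  have := h2 i (by simp only [Set.mem_ofPred_eq, not_lt]; exact h)
  simpa only [h, dif_pos] using this

noncomputable def thetaFun (hx : Homog x) (k : ℕ) (f : Fin (n - k) → HH x k × HH x k) :
    MulAut G := (hx.exTheta k f).choose

lemma thetaFun_lt (hx : Homog x) (k : ℕ) (f : Fin (n - k) → HH x k × HH x k) (j : Fin n)
    (h : j.val < k) : thetaFun hx k f (x j) = x j := (hx.exTheta k f).choose_spec.1 j h

lemma thetaFun_ge (hx : Homog x) (k : ℕ) (f : Fin (n - k) → HH x k × HH x k) (i : Fin n)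
    (h : k ≤ i.val) :
    thetaFun hx k f (x i) = ((rd f i h).1 : G)⁻¹ * x i * ((rd f i h).2 : G) :=
  (hx.exTheta k f).choose_spec.2 i h

lemma thetaFun_fix (hx : Homog x) (k : ℕ) (f : Fin (n - k) → HH x k × HH x k) :
    ∀ h ∈ HH x k, thetaFun hx k f h = h :=
  fix_of (S := {j : Fin n | j.val < k}) (fun j hj => thetaFun_lt hx k f j hj)

noncomputable def theta (hx : Homog x) (k : ℕ) :
    (Fin (n - k) → HH x k × HH x k) →* MulAut G :=
  MonoidHom.mk' (thetaFun hx k) (by
    intro f g
    apply hx.ext
    intro i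
    rw [MulAut.mul_apply]
    by_cases h : i.val < k
    · rw [thetaFun_lt hx k _ i h, thetaFun_lt hx k _ i h, thetaFun_lt hx k _ i h]
    · push Not at h
      rw [thetaFun_ge hx k _ i h, thetaFun_ge hx k g i h, map_mul, map_mul, map_inv,
        thetaFun_fix hx k f _ (rd g i h).1.2, thetaFun_fix hx k f _ (rd g i h).2.2,
        thetaFun_ge hx k f i h]
      have e : rd (f * g) i h = rd f i h * rd g i h := rfl
      rw [e]
      simp only [Prod.fst_mul, Prod.snd_mul, Subgroup.coe_mul]
      group)

lemma theta_apply (hx : Homog x) (k : ℕ) (f : Fin (n - k) → HH x k × HH x k) :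
    theta hx k f = thetaFun hx k f := rfl

lemma theta_injective [IsSimpleGroup G] (hx : Homog x) (hn : 2 ≤ n) (k : ℕ) :
    Function.Injective (theta hx k) := by
  rw [injective_iff_map_eq_one]
  intro f hf
  funext i
  have hi : i.val + k < n := by omega
  have hge : k ≤ (⟨i.val + k, hi⟩ : Fin n).val := by simp
  have h1 := thetaFun_ge hx k f ⟨i.val + k, hi⟩ hge
  rw [← theta_apply, hf, MulAut.one_apply] at h1
  have h2 : rd f ⟨i.val + k, hi⟩ hge = f i := by
    unfold rd
    congr 1
    exact Fin.ext (by simp)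
  rw [h2] at h1
  have hle : HH x k ≤ closure (x '' {j | j ≠ ⟨i.val + k, hi⟩}) := HH_le_ne hge
  have h3 : ((f i).1 : G) * x ⟨i.val + k, hi⟩ = x ⟨i.val + k, hi⟩ * ((f i).2 : G) := by
    conv_lhs => rw [h1]
    group
  have h4 := hx.malnormal hn _ (hle (f i).1.2) (hle (f i).2.2) h3
  exact Prod.ext (Subtype.ext h4.1) (Subtype.ext h4.2)

/-- each `theta f` lies in the group generated by transvection type automorphisms -/
lemma theta_mem (hx : Homog x) (k : ℕ) (f : Fin (n - k) → HH x k × HH x k) :
    theta hx k f ∈ closure {φ : MulAut G | IsTr x φ} := by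
  have : f ∈ (closure {φ : MulAut G | IsTr x φ}).comap (theta hx k) := by
    apply Subgroup.pi_mem_of_mulSingle_mem
    intro i
    rw [mem_comap]
    apply Subgroup.subset_closure
    have hi : i.val + k < n := by omega
    have hge : k ≤ (⟨i.val + k, hi⟩ : Fin n).val := by simp
    have hle : HH x k ≤ closure (x '' {j | j ≠ ⟨i.val + k, hi⟩}) := HH_le_ne hge
    refine ⟨⟨i.val + k, hi⟩, (f i).1, (f i).2, hle (f i).1.2, hle (f i).2.2, ?_, ?_⟩
    · intro j hj
      rw [theta_apply]
      by_cases h : j.val < k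
      · rw [thetaFun_lt hx k _ j h]
      · push Not at h
        rw [thetaFun_ge hx k _ j h]
        have e : rd (Pi.mulSingle i (f i)) j h = 1 := by
          unfold rd
          rw [Pi.mulSingle_eq_of_ne]
          intro h1
          apply hj
          have h2 := congrArg Fin.val h1
          simp only at h2
          apply Fin.ext
          simp only
          omega
        rw [e]
        simp
    · rw [theta_apply, thetaFun_ge hx k _ _ hge]
      have e : rd (Pi.mulSingle i (f i)) ⟨i.val + k, hi⟩ hge = f i := by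
        unfold rd
        have h1 : (⟨(⟨i.val + k, hi⟩ : Fin n).val - k, by simp⟩ : Fin (n - k)) = i :=
          Fin.ext (by simp)
        rw [h1, Pi.mulSingle_eq_same]
      rw [e]
  exact this

lemma perfect_le_derived {A : Type*} [Group A] {E : Subgroup A} (h : E ≤ ⁅E, E⁆) (m : ℕ) :
    E ≤ derivedSeries A m := by
  induction m with
  | zero => exact le_top
  | succ m ih =>
    rw [derivedSeries_succ]
    exact h.trans (commutator_mono ih ih)

lemma Homog.le_inner (hx : Homog x) (hn : 3 ≤ n) {m : ℕ}
    (hm : derivedSeries (MulAut G) m ≤ (MulAut.conj (G := G)).range) :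
    closure {φ : MulAut G | IsTr x φ} ≤ (MulAut.conj (G := G)).range := by
  refine le_trans (perfect_le_derived ?_ m) hm
  rw [closure_le]
  intro φ hφ
  exact hx.perfect hn φ hφ

lemma center_bot [IsSimpleGroup G] (hnc : ¬ ∀ a b : G, a * b = b * a) : center G = ⊥ := by
  rcases (inferInstance : (center G).Normal).eq_bot_or_eq_top with h0 | h0
  · exact h0
  · exfalso
    apply hnc
    intro a b
    have ha : a ∈ center G := by rw [h0]; trivial
    rw [mem_center_iff] at ha
    exact (ha b).symm

lemma conj_injective [IsSimpleGroup G] (hnc : ¬ ∀ a b : G, a * b = b * a) :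
    Function.Injective (MulAut.conj (G := G)) := by
  rw [injective_iff_map_eq_one]
  intro a ha
  have : a ∈ center G := by
    rw [mem_center_iff]
    intro g
    have h1 := DFunLike.congr_fun ha g
    rw [MulAut.conj_apply, MulAut.one_apply] at h1
    -- a g a⁻¹ = g
    rw [mul_inv_eq_iff_eq_mul] at h1
    exact h1.symm
  rw [center_bot hnc, mem_bot] at this
  exact this

lemma Homog.inner_embed [IsSimpleGroup G] (hx : Homog x) (hn : 3 ≤ n) {m : ℕ}
    (hm : derivedSeries (MulAut G) m ≤ (MulAut.conj (G := G)).range) (k : ℕ) :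
    ∃ Ψ : (Fin (n - k) → HH x k × HH x k) →* G, Function.Injective Ψ ∧
      ∀ f, ∀ h ∈ HH x k, Ψ f * h = h * Ψ f := by
  have hnc := hx.not_comm (by omega)
  have hinj := conj_injective hnc
  have hmem : ∀ f, theta hx k f ∈ (MulAut.conj (G := G)).range :=
    fun f => hx.le_inner hn hm (theta_mem hx k f)
  have hex : ∀ f, ∃ g : G, MulAut.conj g = theta hx k f := fun f => hmem f
  choose Ψ hΨ using hex
  refine ⟨MonoidHom.mk' Ψ ?_, ?_, ?_⟩
  · intro f g
    apply hinj
    rw [map_mul, hΨ, hΨ, hΨ, map_mul]
  · intro f g hfg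
    apply theta_injective hx (by omega) k
    rw [← hΨ, ← hΨ]
    exact congrArg _ hfg
  · intro f h hh
    change Ψ f * h = h * Ψ f
    have h1 := thetaFun_fix hx k f h hh
    rw [← theta_apply, ← hΨ, MulAut.conj_apply] at h1
    rw [mul_inv_eq_iff_eq_mul] at h1
    exact h1

end theta

end Pool.Agent.H5CS
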