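import Pool.Agent.H5CS.Core

set_option autoImplicit false

namespace Pool.Agent.H5CS

open Subgroup

section three

variable {G : Type*} [Group G]

lemma three_aux {a w : G} (ha : a ^ 3 = 1) (hw : w ^ 3 = 1) (h1 : (a * w) ^ 3 = 1)
    (h2 : (a⁻¹ * w) ^ 3 = 1) : a * (w * a * w⁻¹) = w * a * w⁻¹ * a := by
  have ha' : a * a = a⁻¹ := by
    rw [pow_succ, pow_two] at ha
    exact eq_inv_of_mul_eq_one_left ha
  have hw' : w⁻¹ = w * w := by
    rw [pow_succ, pow_two] at hw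
    exact (eq_inv_of_mul_eq_one_left hw).symm
  have e1 : w * a * w = a⁻¹ * w⁻¹ * a⁻¹ := by
    have h : a * w * (a * w) * (a * w) = 1 := by
      rw [← pow_two, ← pow_succ]; exact h1
    have : a * (w * a * w) * (a * w) = 1 := by
      rw [← h]; group
    calc w * a * w = a⁻¹ * (a * (w * a * w) * (a * w)) * (a * w)⁻¹ := by group
      _ = a⁻¹ * w⁻¹ * a⁻¹ := by rw [this]; group
  have e2 : w * a⁻¹ * w = a * w⁻¹ * a := by
    have h : a⁻¹ * w * (a⁻¹ * w) * (a⁻¹ * w) = 1 := by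
      rw [← pow_two, ← pow_succ]; exact h2
    have : a⁻¹ * (w * a⁻¹ * w) * (a⁻¹ * w) = 1 := by
      rw [← h]; group
    calc w * a⁻¹ * w = a * (a⁻¹ * (w * a⁻¹ * w) * (a⁻¹ * w)) * (a⁻¹ * w)⁻¹ := by group
      _ = a * w⁻¹ * a := by rw [this]; group
  -- X = w a w⁻¹ = w a w w = a⁻¹ w⁻¹ a⁻¹ w
  have e3 : w * a * w⁻¹ = a⁻¹ * w⁻¹ * a⁻¹ * w := by
    calc w * a * w⁻¹ = w * a * (w * w) := by rw [hw']
      _ = w * a * w * w := by group
      _ = a⁻¹ * w⁻¹ * a⁻¹ * w := by rw [e1]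
  -- X a = a⁻¹ w⁻¹ (a⁻¹ w a) ; a⁻¹ w a = a⁻¹ w a⁻¹ a⁻¹ = (w a⁻¹ w)⁻¹ a⁻¹
  have e4 : a⁻¹ * w * a = w⁻¹ * a * w⁻¹ * a⁻¹ := by
    have : a⁻¹ * w * a⁻¹ = w⁻¹ * a * w⁻¹ := by
      have h3 : (w * a⁻¹ * w)⁻¹ = (a * w⁻¹ * a)⁻¹ := by rw [e2]
      have h4 : (w * a⁻¹ * w)⁻¹ = w⁻¹ * a * w⁻¹ := by group
      have h5 : (a * w⁻¹ * a)⁻¹ = a⁻¹ * w * a⁻¹ := by group
      rw [← h4, ← h5, h3]
    calc a⁻¹ * w * a = a⁻¹ * w * a⁻¹ * (a * a) := by group
      _ = w⁻¹ * a * w⁻¹ * a⁻¹ := by rw [this, ha']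
  have e5 : w⁻¹ * w⁻¹ = w := by
    rw [hw']
    have : w * w * (w * w) = w ^ 3 * w := by
      rw [pow_succ, pow_two]; group
    rw [this, hw, one_mul]
  have e6 : w * a * w⁻¹ * a = a⁻¹ * (w * a * w⁻¹) * a⁻¹ := by
    calc w * a * w⁻¹ * a = a⁻¹ * w⁻¹ * (a⁻¹ * w * a) := by
          rw [e3]; group
      _ = a⁻¹ * (w⁻¹ * w⁻¹) * a * w⁻¹ * a⁻¹ := by rw [e4]; group
      _ = a⁻¹ * (w * a * w⁻¹) * a⁻¹ := by rw [e5]; group
  -- a X a = X a⁻¹ ; a X a a = X ; a X = X a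
  have e7 : a * (w * a * w⁻¹) * a = w * a * w⁻¹ * a⁻¹ := by
    rw [mul_assoc, e6]; group
  calc a * (w * a * w⁻¹) = a * (w * a * w⁻¹) * a * a * (a * a)⁻¹ := by group
    _ = w * a * w⁻¹ * (a * a)⁻¹ := by rw [e7]; group
    _ = w * a * w⁻¹ * a := by rw [ha', inv_inv]

/-- exponent three extension step -/
lemma three_step (K : Subgroup G) (a : G) (hK : ∀ w ∈ K, w ^ 3 = 1) (ha : a ^ 3 = 1)
    (h1 : ∀ w ∈ K, (a * w) ^ 3 = 1) (h2 : ∀ w ∈ K, (a⁻¹ * w) ^ 3 = 1) :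
    ∀ g ∈ K ⊔ closure {a}, g ^ 3 = 1 := by
  set B := closure {b : G | ∃ w ∈ K, b = w * a * w⁻¹} with hB
  have hBcomm : ∀ b ∈ B, ∀ c ∈ B, b * c = c * b := by
    have hle : B ≤ centralizer {b : G | ∃ w ∈ K, b = w * a * w⁻¹} := by
      rw [hB, closure_le]
      rintro _ ⟨w, hw, rfl⟩
      rw [SetLike.mem_coe, mem_centralizer_iff]
      rintro _ ⟨w', hw', rfl⟩
      have hww : w⁻¹ * w' ∈ K := K.mul_mem (K.inv_mem hw) hw'
      have := three_aux ha (hK _ hww) (h1 _ hww) (h2 _ hww)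
      calc w' * a * w'⁻¹ * (w * a * w⁻¹)
          = w * ((w⁻¹ * w') * a * (w⁻¹ * w')⁻¹ * a) * w⁻¹ := by group
        _ = w * (a * ((w⁻¹ * w') * a * (w⁻¹ * w')⁻¹)) * w⁻¹ := by rw [this]
        _ = w * a * w⁻¹ * (w' * a * w'⁻¹) := by group
    have hle2 : B ≤ centralizer (B : Set G) := by
      rw [hB, closure_le]
      intro g hg
      rw [SetLike.mem_coe, mem_centralizer_iff]
      intro b hb
      have := hle hb
      rw [mem_centralizer_iff] at this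
      exact (this g hg).symm
    intro b hb c hc
    have := hle2 hc
    rw [mem_centralizer_iff] at this
    exact this b hb
  have hBconj : ∀ w ∈ K, ∀ b ∈ B, w * b * w⁻¹ ∈ B := by
    intro w hw b hb
    rw [hB] at hb
    refine closure_induction (p := fun b _ => w * b * w⁻¹ ∈ B) ?_ ?_ ?_ ?_ hb
    · rintro _ ⟨w', hw', rfl⟩
      apply Subgroup.subset_closure
      exact ⟨w * w', K.mul_mem hw hw', by group⟩
    · simp [B.one_mem]
    · intro b c _ _ hb hc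
      have := B.mul_mem hb hc
      have h : w * b * w⁻¹ * (w * c * w⁻¹) = w * (b * c) * w⁻¹ := by group
      rwa [h] at this
    · intro b _ hb
      have := B.inv_mem hb
      have h : (w * b * w⁻¹)⁻¹ = w * b⁻¹ * w⁻¹ := by group
      rwa [h] at this
  have haB : a ∈ B := subset_closure ⟨1, K.one_mem, by group⟩
  let P : Subgroup G :=
    { carrier := {g | ∃ b ∈ B, ∃ w ∈ K, g = b * w}
      mul_mem' := by
        rintro _ _ ⟨b, hb, w, hw, rfl⟩ ⟨c, hc, z, hz, rfl⟩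
        refine ⟨b * (w * c * w⁻¹), B.mul_mem hb (hBconj w hw c hc), w * z, K.mul_mem hw hz, ?_⟩
        group
      one_mem' := ⟨1, B.one_mem, 1, K.one_mem, by group⟩
      inv_mem' := by
        rintro _ ⟨b, hb, w, hw, rfl⟩
        refine ⟨w⁻¹ * b⁻¹ * w⁻¹⁻¹, hBconj _ (K.inv_mem hw) _ (B.inv_mem hb), w⁻¹, K.inv_mem hw, ?_⟩
        group }
  have hP : K ⊔ closure {a} ≤ P := by
    rw [sup_le_iff]
    constructor
    · intro w hw
      exact ⟨1, B.one_mem, w, hw, by group⟩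
    · rw [closure_le, Set.singleton_subset_iff]
      exact ⟨a, haB, 1, K.one_mem, by group⟩
  have hf : ∀ w ∈ K, ∀ b ∈ B, b * (w * b * w⁻¹) * (w * w * b * (w * w)⁻¹) = 1 := by
    intro w hw b hb
    rw [hB] at hb
    refine closure_induction
      (p := fun b _ => b * (w * b * w⁻¹) * (w * w * b * (w * w)⁻¹) = 1) ?_ ?_ ?_ ?_ hb
    · rintro _ ⟨c, hc, rfl⟩
      have hw' : c⁻¹ * w * c ∈ K := K.mul_mem (K.mul_mem (K.inv_mem hc) hw) hc
      have h3 := h1 _ hw'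
      have hw3 : w * w * w = 1 := by
        have := hK w hw
        rwa [pow_succ, pow_two] at this
      have h4 : (a * (c⁻¹ * w * c)) * (a * (c⁻¹ * w * c)) * (a * (c⁻¹ * w * c)) = 1 := by
        rwa [pow_succ, pow_two] at h3
      calc c * a * c⁻¹ * (w * (c * a * c⁻¹) * w⁻¹) * (w * w * (c * a * c⁻¹) * (w * w)⁻¹)
          = c * ((a * (c⁻¹ * w * c)) * (a * (c⁻¹ * w * c)) * (a * (c⁻¹ * w * c))) * c⁻¹
              * (w * w * w)⁻¹ := by group
        _ = 1 := by rw [h4, hw3]; group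
    · group
    · intro b c hb hc h3 h4
      change b ∈ B at hb
      change c ∈ B at hc
      have k1 := hBconj w hw c hc
      have k2 := hBconj w hw b hb
      have k3 := hBconj (w * w) (K.mul_mem hw hw) b hb
      have k4 := hBconj (w * w) (K.mul_mem hw hw) c hc
      have e1 : c * (w * b * w⁻¹) = w * b * w⁻¹ * c := hBcomm _ hc _ k2
      have e2 : c * (w * c * w⁻¹) * (w * w * b * (w * w)⁻¹)
          = (w * w * b * (w * w)⁻¹) * (c * (w * c * w⁻¹)) :=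
        hBcomm _ (B.mul_mem hc k1) _ k3
      calc b * c * (w * (b * c) * w⁻¹) * (w * w * (b * c) * (w * w)⁻¹)
          = b * (c * (w * b * w⁻¹)) * (w * c * w⁻¹) * (w * w * b * (w * w)⁻¹) *
              (w * w * c * (w * w)⁻¹) := by group
        _ = b * (w * b * w⁻¹) * (c * (w * c * w⁻¹) * (w * w * b * (w * w)⁻¹)) *
              (w * w * c * (w * w)⁻¹) := by rw [e1]; group
        _ = (b * (w * b * w⁻¹) * (w * w * b * (w * w)⁻¹)) *
              (c * (w * c * w⁻¹) * (w * w * c * (w * w)⁻¹)) := by rw [e2]; group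
        _ = 1 := by rw [h3, h4, one_mul]
    · intro b hb h3
      change b ∈ B at hb
      have k2 := hBconj w hw b hb
      have k3 := hBconj (w * w) (K.mul_mem hw hw) b hb
      have e1 := hBcomm _ hb _ k2
      have e2 := hBcomm _ (B.mul_mem hb k2) _ k3
      have h5 : (w * w * b * (w * w)⁻¹) * ((w * b * w⁻¹) * b) = 1 := by
        rw [← h3, e2, e1]
      calc b⁻¹ * (w * b⁻¹ * w⁻¹) * (w * w * b⁻¹ * (w * w)⁻¹)
          = ((w * w * b * (w * w)⁻¹) * ((w * b * w⁻¹) * b))⁻¹ := by group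
        _ = 1 := by rw [h5, inv_one]
  intro g hg
  obtain ⟨b, hb, w, hw, rfl⟩ := hP hg
  have hw3 : w * w * w = 1 := by
    have := hK w hw
    rwa [pow_succ, pow_two] at this
  calc (b * w) ^ 3 = b * (w * b * w⁻¹) * (w * w * b * (w * w)⁻¹) * (w * w * w) := by
        rw [pow_succ, pow_two]; group
    _ = 1 := by rw [hf w hw b hb, hw3, one_mul]

end three

end Pool.Agent.H5CS
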